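import Mathlib

set_option autoImplicit false

namespace Pool.Agent.Work.MP_28bf97_an

open Finset

/-- The Thue-Morse sequence with values in `{1, -1}`. -/
noncomputable def tm (n : ℕ) : ℂ := (-1) ^ (Nat.digits 2 n).sum

theorem tm_zero : tm 0 = 1 := by simp [tm]

theorem tm_two_mul (n : ℕ) : tm (2 * n) = tm n := by
  unfold tm
  rcases Nat.eq_zero_or_pos n with h | h
  · subst h; simp
  · have := Nat.digits_add_two_add_one 0 (2 * n - 1)
    rw [show 2 * n - 1 + 1 = 2 * n by omega] at this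
    rw [show (2 : ℕ) = 0 + 2 by rfl] at this ⊢
    rw [show 2 * n = (0 + 2) * n by ring] at this
    rw [this]
    simp

theorem tm_two_mul_add_one (n : ℕ) : tm (2 * n + 1) = -tm n := by
  unfold tm
  have := Nat.digits_add_two_add_one 0 (2 * n)
  rw [show (2 : ℕ) = 0 + 2 by rfl] at this ⊢
  rw [this]
  have h1 : ((0 + 2) * n + 1) % (0 + 2) = 1 := by omega
  have h2 : ((0 + 2) * n + 1) / (0 + 2) = n := by omega
  rw [h1, h2]
  simp [pow_add]

theorem tm_eq_one_or (n : ℕ) : tm n = 1 ∨ tm n = -1 := by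
  unfold tm
  exact neg_one_pow_eq_or ℂ _

theorem norm_tm (n : ℕ) : ‖tm n‖ = 1 := by
  rcases tm_eq_one_or n with h | h <;> simp [h]

theorem tm_block (r : ℕ) : ∀ q i : ℕ, i < 2 ^ r → tm (2 ^ r * q + i) = tm q * tm i := by
  induction r with
  | zero =>
    intro q i hi
    have : i = 0 := by simpa using hi
    subst this
    simp [tm_zero]
  | succ r ih =>
    intro q i hi
    have hi' : i / 2 < 2 ^ r := by
      rw [pow_succ] at hi
      omega
    rcases Nat.even_or_odd' i with ⟨b, hb | hb⟩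
    · have hb' : b < 2 ^ r := by omega
      have : 2 ^ (r + 1) * q + i = 2 * (2 ^ r * q + b) := by rw [hb, pow_succ]; ring
      rw [this, tm_two_mul, ih q b hb', hb, tm_two_mul]
    · have hb' : b < 2 ^ r := by omega
      have : 2 ^ (r + 1) * q + i = 2 * (2 ^ r * q + b) + 1 := by rw [hb, pow_succ]; ring
      rw [this, tm_two_mul_add_one, ih q b hb', hb, tm_two_mul_add_one]
      ring

/-- Partial exponential sums. -/
noncomputable def S (r : ℕ) (z : ℂ) : ℂ := ∑ i ∈ range (2 ^ r), tm i * z ^ i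

theorem S_succ (r : ℕ) (z : ℂ) : S (r + 1) z = (1 - z) * S r (z ^ 2) := by
  unfold S
  rw [pow_succ, mul_comm (2 ^ r) 2]
  have : ∀ n : ℕ, ∑ i ∈ range (2 * n), tm i * z ^ i
      = (1 - z) * ∑ i ∈ range n, tm i * (z ^ 2) ^ i := by
    intro n
    induction n with
    | zero => simp
    | succ n ih =>
      rw [show 2 * (n + 1) = 2 * n + 1 + 1 by ring, sum_range_succ, sum_range_succ, ih,
        sum_range_succ, tm_two_mul, tm_two_mul_add_one]
      ring
  exact this _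

theorem norm_two_factor {z : ℂ} (hz : ‖z‖ = 1) : ‖(1 - z) * (1 - z ^ 2)‖ ≤ 7 / 2 := by
  have h1 : ‖(1 - z) * (1 - z ^ 2)‖ ^ 2 = 8 * (1 - z.re) ^ 2 * (1 + z.re) := by
    have e : (1 - z) * (1 - z ^ 2) = (1 - z) ^ 2 * (1 + z) := by ring
    have hz2 : z.re * z.re + z.im * z.im = 1 := by
      have := Complex.sq_norm z
      rw [hz, Complex.normSq_apply] at this
      linarith
    have a1 : ‖1 - z‖ ^ 2 = 2 * (1 - z.re) := by
      rw [Complex.sq_norm, Complex.normSq_apply]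
      simp
      nlinarith
    have a2 : ‖1 + z‖ ^ 2 = 2 * (1 + z.re) := by
      rw [Complex.sq_norm, Complex.normSq_apply]
      simp
      nlinarith
    rw [e, norm_mul, norm_pow, mul_pow, ← pow_mul, mul_comm 2 2, pow_mul, a1, a2]
    ring
  have hre : |z.re| ≤ 1 := hz ▸ Complex.abs_re_le_norm z
  have hre' := abs_le.mp hre
  have h2 : 8 * (1 - z.re) ^ 2 * (1 + z.re) ≤ (7 / 2) ^ 2 := by
    nlinarith [mul_nonneg (sub_nonneg.mpr hre'.2) (sq_nonneg (z.re + 1 / 3)), sq_nonneg (z.re + 1 / 3),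
      mul_nonneg (by linarith [hre'.1] : (0 : ℝ) ≤ 1 + z.re) (sq_nonneg (z.re + 1 / 3))]
  have h3 : ‖(1 - z) * (1 - z ^ 2)‖ ^ 2 ≤ (7 / 2) ^ 2 := h1 ▸ h2
  exact le_of_sq_le_sq h3 (by norm_num)

theorem norm_S_le (s : ℕ) : ∀ z : ℂ, ‖z‖ = 1 → ‖S (2 * s) z‖ ≤ (7 / 2) ^ s := by
  induction s with
  | zero => intro z hz; simp [S, tm_zero]
  | succ s ih =>
    intro z hz
    have : S (2 * (s + 1)) z = ((1 - z) * (1 - z ^ 2)) * S (2 * s) (z ^ 4) := by
      rw [show 2 * (s + 1) = 2 * s + 1 + 1 by ring, S_succ, S_succ]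
      ring_nf
    rw [this, norm_mul, pow_succ, mul_comm]
    have hz4 : ‖z ^ 4‖ = 1 := by rw [norm_pow, hz]; simp
    have h5 : (0 : ℝ) ≤ (7 / 2) ^ s := by positivity
    exact mul_le_mul (ih _ hz4) (norm_two_factor hz) (norm_nonneg _) h5

/-- General partial sums. -/
noncomputable def A (z : ℂ) (n : ℕ) : ℂ := ∑ i ∈ range n, tm i * z ^ i

theorem A_block (s : ℕ) (z : ℂ) (q : ℕ) :
    A z (4 ^ s * (q + 1)) - A z (4 ^ s * q) = tm q * z ^ (4 ^ s * q) * S (2 * s) z := by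
  have e4 : (4 : ℕ) ^ s = 2 ^ (2 * s) := by rw [pow_mul]; norm_num
  unfold A S
  rw [mul_add, mul_one, sum_range_add, add_sub_cancel_left, mul_sum, e4]
  apply sum_congr rfl
  intro i hi
  rw [mem_range] at hi
  rw [tm_block _ q i hi]
  ring

theorem A_blocks (s : ℕ) (z : ℂ) (hz : ‖z‖ = 1) (q M : ℕ) :
    ‖A z (4 ^ s * (q + M)) - A z (4 ^ s * q)‖ ≤ M * (7 / 2) ^ s := by
  induction M with
  | zero => simp
  | succ M ih =>
    have : A z (4 ^ s * (q + (M + 1))) - A z (4 ^ s * q)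
        = (A z (4 ^ s * (q + M + 1)) - A z (4 ^ s * (q + M)))
          + (A z (4 ^ s * (q + M)) - A z (4 ^ s * q)) := by
      rw [← add_assoc]; ring
    rw [this]
    refine (norm_add_le _ _).trans ?_
    rw [A_block, norm_mul, norm_mul, norm_tm, norm_pow, hz, one_pow, one_mul, one_mul]
    push_cast
    have := norm_S_le s z hz
    linarith

theorem A_add_sub (z : ℂ) (hz : ‖z‖ = 1) (n i : ℕ) : ‖A z (n + i) - A z n‖ ≤ i := by
  unfold A
  rw [sum_range_add, add_sub_cancel_left]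
  refine (norm_sum_le _ _).trans ?_
  simp [norm_tm, hz]

/-- The window sum. -/
theorem window_le (s : ℕ) (z : ℂ) (hz : ‖z‖ = 1) (n : ℕ) :
    ‖∑ j ∈ range (16 ^ s), z ^ j * tm (n + j)‖ ≤ 2 * 4 ^ s + 4 ^ s * (7 / 2) ^ s := by
  have hz0 : z ≠ 0 := by
    intro h; rw [h] at hz; simp at hz
  have h1 : z ^ n * ∑ j ∈ range (16 ^ s), z ^ j * tm (n + j) = A z (n + 16 ^ s) - A z n := by
    unfold A
    rw [sum_range_add, add_sub_cancel_left, mul_sum]
    apply sum_congr rfl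
    intro j _
    ring
  have h2 : ‖∑ j ∈ range (16 ^ s), z ^ j * tm (n + j)‖ = ‖A z (n + 16 ^ s) - A z n‖ := by
    rw [← h1, norm_mul, norm_pow, hz, one_pow, one_mul]
  rw [h2]
  obtain ⟨q, i, hi, hn⟩ : ∃ q i, i < 4 ^ s ∧ n = 4 ^ s * q + i :=
    ⟨n / 4 ^ s, n % 4 ^ s, Nat.mod_lt _ (by positivity), (Nat.div_add_mod n (4 ^ s)).symm⟩
  have e16 : (16 : ℕ) ^ s = 4 ^ s * 4 ^ s := by rw [← mul_pow]; norm_num
  have e1 : n + 16 ^ s = 4 ^ s * (q + 4 ^ s) + i := by rw [hn, e16]; ring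
  have e2 : A z (n + 16 ^ s) - A z n
      = (A z (4 ^ s * (q + 4 ^ s) + i) - A z (4 ^ s * (q + 4 ^ s)))
        + (A z (4 ^ s * (q + 4 ^ s)) - A z (4 ^ s * q))
        - (A z (4 ^ s * q + i) - A z (4 ^ s * q)) := by
    rw [e1, hn]; ring
  rw [e2]
  have b1 := A_add_sub z hz (4 ^ s * (q + 4 ^ s)) i
  have b2 := A_blocks s z hz q (4 ^ s)
  have b3 := A_add_sub z hz (4 ^ s * q) i
  have hi' : (i : ℝ) ≤ 4 ^ s := by exact_mod_cast hi.le
  push_cast at b2
  refine (norm_sub_le _ _).trans ?_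
  have := norm_add_le (A z (4 ^ s * (q + 4 ^ s) + i) - A z (4 ^ s * (q + 4 ^ s)))
    (A z (4 ^ s * (q + 4 ^ s)) - A z (4 ^ s * q))
  linarith

end Pool.Agent.Work.MP_28bf97_an
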