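import Mathlib
import Pool.Agent.Work.MP_28bf97_an.ThueMorse

set_option autoImplicit false
set_option synthInstance.maxHeartbeats 400000
set_option maxHeartbeats 1000000

namespace Pool.Agent.Work.MP_28bf97_an

open Finset Filter Topology

/-- Index set: shift `n`, scale `s`, unimodular number `z`. -/
abbrev I : Type := ℕ × ℕ × Circle

/-- The weight `(1/2)^n * (16/15)^s / 16^s = (1/2)^n (1/15)^s`. -/
noncomputable def wt (n s : ℕ) : ℂ := (1 / 2) ^ n * (1 / 15) ^ s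

theorem norm_wt (n s : ℕ) : ‖wt n s‖ = (1 / 2) ^ n * (1 / 15) ^ s := by
  unfold wt
  rw [norm_mul, norm_pow, norm_pow]
  norm_num

/-- The coordinate functionals, on arbitrary sequences. -/
noncomputable def w (i : I) (x : ℕ → ℂ) : ℂ :=
  wt i.1 i.2.1 * ∑ j ∈ range (16 ^ i.2.1), (i.2.2 : ℂ) ^ j * x (i.1 + j)

/-- Ambient space. -/
abbrev E : Type := lp (fun _ : I => ℂ) ⊤

/-- Reconstruct the sequence. -/
noncomputable def seq (F : E) (n : ℕ) : ℂ := 2 ^ n * F (n, 0, 1)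

/-- The closed subspace. -/
noncomputable def X : Submodule ℂ E where
  carrier := {F | ∀ i : I, F i = w i (seq F)}
  add_mem' := by
    intro F G hF hG i
    have h1 := hF i
    have h2 := hG i
    rw [lp.coeFn_add, Pi.add_apply, h1, h2]
    unfold w seq
    rw [← mul_add, ← sum_add_distrib]
    congr 1
    apply sum_congr rfl
    intro j _
    rw [lp.coeFn_add, Pi.add_apply]
    ring
  zero_mem' := by
    intro i
    simp [w, seq]
  smul_mem' := by
    intro c F hF i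
    have h1 := hF i
    rw [lp.coeFn_smul, Pi.smul_apply, h1]
    unfold w seq
    rw [smul_eq_mul, mul_left_comm, mul_sum]
    congr 1
    apply sum_congr rfl
    intro j _
    rw [lp.coeFn_smul, Pi.smul_apply, smul_eq_mul]
    ring

theorem mem_X (F : E) : F ∈ X ↔ ∀ i : I, F i = w i (seq F) := Iff.rfl

theorem continuous_apply_E (i : I) : Continuous fun F : E => F i :=
  (lp.evalCLM ℂ (fun _ : I => ℂ) ⊤ i).continuous

theorem isClosed_X : IsClosed (X : Set E) := by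
  have : (X : Set E) = ⋂ i : I, {F : E | F i = w i (seq F)} := by
    ext F
    simp only [SetLike.mem_coe, mem_X, Set.mem_iInter, Set.mem_ofPred_eq]
  rw [this]
  apply isClosed_iInter
  intro i
  apply isClosed_eq (continuous_apply_E i)
  unfold w seq
  refine continuous_const.mul (continuous_finsetSum _ ?_)
  intro j _
  exact continuous_const.mul (continuous_const.mul (continuous_apply_E _))

instance : CompleteSpace X := isClosed_X.completeSpace_coe

/-- The shift on the ambient space. -/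
noncomputable def L0 : E →ₗ[ℂ] E where
  toFun F := ⟨fun i => 2 * F (i.1 + 1, i.2), by
    apply memℓp_infty
    refine ⟨2 * ‖F‖, ?_⟩
    rintro _ ⟨i, rfl⟩
    simp only [norm_mul, Complex.norm_ofNat]
    have := lp.norm_apply_le_norm ENNReal.top_ne_zero F (i.1 + 1, i.2)
    linarith⟩
  map_add' F G := by
    ext i
    simp only [lp.coeFn_add, Pi.add_apply]
    ring
  map_smul' c F := by
    ext i
    simp only [lp.coeFn_smul, Pi.smul_apply, smul_eq_mul, RingHom.id_apply]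
    ring

theorem L0_apply (F : E) (i : I) : L0 F i = 2 * F (i.1 + 1, i.2) := rfl

theorem L0_norm (F : E) : ‖L0 F‖ ≤ 2 * ‖F‖ := by
  apply lp.norm_le_of_forall_le (by positivity)
  intro i
  rw [L0_apply, norm_mul, Complex.norm_ofNat]
  have := lp.norm_apply_le_norm ENNReal.top_ne_zero F (i.1 + 1, i.2)
  linarith

theorem seq_L0 (F : E) (n : ℕ) : seq (L0 F) n = seq F (n + 1) := by
  unfold seq
  rw [L0_apply]
  ring

theorem w_shift (i : I) (x : ℕ → ℂ) : w i (fun n => x (n + 1)) = 2 * w (i.1 + 1, i.2) x := by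
  unfold w wt
  simp only [pow_succ, mul_sum]
  apply sum_congr rfl
  intro j _
  rw [show i.1 + j + 1 = i.1 + 1 + j by ring]
  ring

theorem L0_mem (F : E) (hF : F ∈ X) : L0 F ∈ X := by
  intro i
  have h : seq (L0 F) = fun n => seq F (n + 1) := funext (seq_L0 F)
  rw [h, w_shift, L0_apply]
  rw [← hF]

/-- The operator. -/
noncomputable def T : X →L[ℂ] X :=
  LinearMap.mkContinuous (L0.restrict L0_mem) 2 (by
    intro F
    exact L0_norm F)

theorem T_coe (F : X) : ((T F : X) : E) = L0 (F : E) := rfl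

theorem T_apply (F : X) (i : I) : ((T F : X) : E) i = 2 * (F : E) (i.1 + 1, i.2) := rfl

theorem T_pow_apply (k : ℕ) : ∀ (F : X) (i : I),
    (((T ^ k) F : X) : E) i = 2 ^ k * (F : E) (i.1 + k, i.2) := by
  induction k with
  | zero => intro F i; simp
  | succ k ih =>
    intro F i
    rw [pow_succ]
    change (((T ^ k) (T F) : X) : E) i = _
    rw [ih, T_apply]
    ring_nf

theorem seq_ext (F : X) (h : ∀ n, seq (F : E) n = 0) : F = 0 := by
  apply Subtype.ext
  apply lp.ext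
  funext i
  have := F.2 i
  rw [this]
  unfold w
  simp [h]

/-- No unimodular eigenvectors. -/
theorem no_eig (F : X) (c : ℂ) (hc : ‖c‖ = 1) (h : T F = c • F) : F = 0 := by
  have h1 : ∀ n, seq (F : E) (n + 1) = c * seq (F : E) n := by
    intro n
    rw [← seq_L0, ← T_coe, h]
    unfold seq
    rw [Submodule.coe_smul, lp.coeFn_smul, Pi.smul_apply, smul_eq_mul]
    ring
  have h2 : ∀ n, seq (F : E) n = c ^ n * seq (F : E) 0 := by
    intro n
    induction n with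
    | zero => simp
    | succ n ih => rw [h1, ih, pow_succ]; ring
  have hc0 : c ≠ 0 := by
    intro h0; rw [h0] at hc; simp at hc
  have hci : ‖c⁻¹‖ = 1 := by rw [norm_inv, hc, inv_one]
  let z : Circle := ⟨c⁻¹, by rw [Submonoid.unitSphere, ← SetLike.mem_coe]; simp [hci]⟩
  have hz : (z : ℂ) = c⁻¹ := rfl
  have h3 : ∀ s : ℕ, (16 / 15 : ℝ) ^ s * ‖seq (F : E) 0‖ ≤ ‖F‖ := by
    intro s
    have e := F.2 (0, s, z)
    have e2 : (F : E) (0, s, z) = (16 / 15) ^ s * seq (F : E) 0 := by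
      rw [e]
      unfold w wt
      simp only [pow_zero, one_mul, zero_add, hz]
      have : ∀ j ∈ range (16 ^ s), (c⁻¹) ^ j * seq (F : E) j = seq (F : E) 0 := by
        intro j _
        rw [h2 j, ← mul_assoc, ← mul_pow, inv_mul_cancel₀ hc0, one_pow, one_mul]
      rw [sum_congr rfl this, sum_const, card_range, nsmul_eq_mul]
      push_cast
      rw [← mul_assoc, ← mul_pow]
      norm_num
    have := lp.norm_apply_le_norm ENNReal.top_ne_zero (F : E) (0, s, z)
    rw [e2, norm_mul, norm_pow] at this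
    have e3 : ‖(16 / 15 : ℂ)‖ = 16 / 15 := by norm_num
    rw [e3] at this
    exact this
  have h4 : seq (F : E) 0 = 0 := by
    by_contra hne
    have hpos : 0 < ‖seq (F : E) 0‖ := norm_pos_iff.mpr hne
    have := tendsto_pow_atTop_atTop_of_one_lt (by norm_num : (1 : ℝ) < 16 / 15)
    obtain ⟨s, hs⟩ := (this.eventually_gt_atTop (‖F‖ / ‖seq (F : E) 0‖)).exists
    have h5 := h3 s
    rw [div_lt_iff₀ hpos] at hs
    linarith
  apply seq_ext
  intro n
  rw [h2, h4, mul_zero]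

/-- Uniform estimate. -/
theorem w_tm_le (k : ℕ) (i : I) :
    ‖w i (fun n => tm (n + k))‖ ≤ 3 * ((1 / 2) ^ i.1 * (14 / 15) ^ i.2.1) := by
  obtain ⟨n, s, z⟩ := i
  unfold w
  simp only
  rw [norm_mul, norm_wt]
  have hz : ‖(z : ℂ)‖ = 1 := Circle.norm_coe z
  have h := window_le s (z : ℂ) hz (n + k)
  have e : ∑ j ∈ range (16 ^ s), (z : ℂ) ^ j * tm (n + j + k)
      = ∑ j ∈ range (16 ^ s), (z : ℂ) ^ j * tm (n + k + j) := by
    apply sum_congr rfl
    intro j _
    rw [show n + j + k = n + k + j by ring]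
  rw [e]
  have b1 : (2 : ℝ) * 4 ^ s + 4 ^ s * (7 / 2) ^ s ≤ 3 * 14 ^ s := by
    rw [← mul_pow]
    have : (4 : ℝ) ^ s ≤ 14 ^ s := pow_le_pow_left₀ (by norm_num) (by norm_num) s
    norm_num
    linarith
  have b2 : (1 / 15 : ℝ) ^ s * (3 * 14 ^ s) = 3 * (14 / 15) ^ s := by
    rw [mul_left_comm, ← mul_pow]
    norm_num
  calc (1 / 2 : ℝ) ^ n * (1 / 15) ^ s * ‖∑ j ∈ range (16 ^ s), (z : ℂ) ^ j * tm (n + k + j)‖
      ≤ (1 / 2 : ℝ) ^ n * (1 / 15) ^ s * (3 * 14 ^ s) := by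
        apply mul_le_mul_of_nonneg_left (h.trans b1)
        positivity
    _ = 3 * ((1 / 2) ^ n * (14 / 15) ^ s) := by
        rw [mul_assoc, b2]
        ring

/-- The Thue-Morse vector. -/
noncomputable def F0 : E := ⟨fun i => w i tm, by
  apply memℓp_infty
  refine ⟨3, ?_⟩
  rintro _ ⟨i, rfl⟩
  refine (w_tm_le 0 i).trans ?_
  have h1 : (1 / 2 : ℝ) ^ i.1 ≤ 1 := pow_le_one₀ (by norm_num) (by norm_num)
  have h2 : (14 / 15 : ℝ) ^ i.2.1 ≤ 1 := pow_le_one₀ (by norm_num) (by norm_num)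
  have h3 : (1 / 2 : ℝ) ^ i.1 * (14 / 15 : ℝ) ^ i.2.1 ≤ 1 := mul_le_one₀ h1 (by positivity) h2
  linarith⟩

theorem F0_apply (i : I) : F0 i = w i tm := rfl

theorem seq_F0 : seq F0 = tm := by
  funext n
  unfold seq
  rw [F0_apply]
  unfold w wt
  simp only [pow_zero, mul_one, range_one, sum_singleton, add_zero, one_mul]
  rw [← mul_assoc, ← mul_pow]
  norm_num

theorem F0_mem : F0 ∈ X := by
  intro i
  rw [seq_F0, F0_apply]

/-- The vector in `X`. -/
noncomputable def v0 : X := ⟨F0, F0_mem⟩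

theorem v0_ne : v0 ≠ 0 := by
  intro h
  have h1 : seq (v0 : E) 0 = 0 := by rw [h]; simp [seq]
  have h2 : seq (v0 : E) 0 = 1 := by
    change seq F0 0 = 1
    rw [seq_F0, tm_zero]
  rw [h2] at h1
  exact one_ne_zero h1

theorem T_pow_v0 (k : ℕ) (i : I) : (((T ^ k) v0 : X) : E) i = w i (fun n => tm (n + k)) := by
  rw [T_pow_apply]
  change 2 ^ k * F0 (i.1 + k, i.2) = _
  rw [F0_apply]
  unfold w wt
  simp only
  rw [pow_add]
  have : (2 : ℂ) ^ k * ((1 / 2) ^ i.1 * (1 / 2) ^ k * (1 / 15) ^ i.2.1 *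
      ∑ j ∈ range (16 ^ i.2.1), (i.2.2 : ℂ) ^ j * tm (i.1 + k + j))
      = (2 ^ k * (1 / 2) ^ k) * ((1 / 2) ^ i.1 * (1 / 15) ^ i.2.1 *
      ∑ j ∈ range (16 ^ i.2.1), (i.2.2 : ℂ) ^ j * tm (i.1 + k + j)) := by ring
  rw [this, ← mul_pow]
  have e : ∑ j ∈ range (16 ^ i.2.1), (i.2.2 : ℂ) ^ j * tm (i.1 + j + k)
      = ∑ j ∈ range (16 ^ i.2.1), (i.2.2 : ℂ) ^ j * tm (i.1 + k + j) := by
    apply sum_congr rfl
    intro j _
    rw [show i.1 + j + k = i.1 + k + j by ring]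
  rw [e]
  norm_num

theorem urec (ε : ℝ) (hε : 0 < ε) : ∃ m : ℕ, ∀ k : ℕ,
    ∃ n : ℕ, k < n ∧ n ≤ k + m ∧ ‖(T ^ n) v0 - v0‖ < ε := by
  have t1 := tendsto_pow_atTop_nhds_zero_of_lt_one (by norm_num : (0 : ℝ) ≤ 1 / 2)
    (by norm_num : (1 / 2 : ℝ) < 1)
  have t2 := tendsto_pow_atTop_nhds_zero_of_lt_one (by norm_num : (0 : ℝ) ≤ 14 / 15)
    (by norm_num : (14 / 15 : ℝ) < 1)
  obtain ⟨N0, hN0⟩ := (t1.eventually_lt_const (by positivity : (0 : ℝ) < ε / 12)).exists
  obtain ⟨S0, hS0⟩ := (t2.eventually_lt_const (by positivity : (0 : ℝ) < ε / 12)).exists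
  obtain ⟨r, hr⟩ : ∃ r : ℕ, N0 + 16 ^ S0 < 2 ^ r := ⟨N0 + 16 ^ S0, Nat.lt_two_pow_self⟩
  refine ⟨3 * 2 ^ r, ?_⟩
  intro k
  -- choose q
  obtain ⟨q, hq1, hq2, hq3⟩ : ∃ q : ℕ, k < 2 ^ r * q ∧ 2 ^ r * q ≤ k + 3 * 2 ^ r ∧ tm q = 1 := by
    set p := k / 2 ^ (r + 1) + 1 with hp
    have hk : 2 ^ (r + 1) * (k / 2 ^ (r + 1)) + k % 2 ^ (r + 1) = k := Nat.div_add_mod _ _
    have hk2 : k % 2 ^ (r + 1) < 2 ^ (r + 1) := Nat.mod_lt _ (by positivity)
    have e1 : 2 ^ r * (2 * p) = 2 ^ (r + 1) * (k / 2 ^ (r + 1)) + 2 ^ (r + 1) := by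
      rw [hp, pow_succ]; ring
    have e2 : (2 : ℕ) ^ (r + 1) = 2 * 2 ^ r := by rw [pow_succ]; ring
    rcases tm_eq_one_or p with h | h
    · refine ⟨2 * p, ?_, ?_, ?_⟩
      · rw [e1]; omega
      · rw [e1]; omega
      · rw [tm_two_mul, h]
    · refine ⟨2 * p + 1, ?_, ?_, ?_⟩
      · rw [mul_add, e1]; omega
      · rw [mul_add, e1]; omega
      · rw [tm_two_mul_add_one, h]; simp
  refine ⟨2 ^ r * q, hq1, hq2, ?_⟩
  have key : ‖(T ^ (2 ^ r * q)) v0 - v0‖ ≤ ε / 2 := by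
    change ‖(((T ^ (2 ^ r * q)) v0 - v0 : X) : E)‖ ≤ ε / 2
    apply lp.norm_le_of_forall_le (by positivity)
    intro i
    rw [Submodule.coe_sub, lp.coeFn_sub, Pi.sub_apply, T_pow_v0]
    change ‖w i (fun n => tm (n + 2 ^ r * q)) - w i tm‖ ≤ ε / 2
    have b1 := w_tm_le (2 ^ r * q) i
    have b2 := w_tm_le 0 i
    simp only [add_zero] at b2
    by_cases hn : N0 ≤ i.1
    · have h1 : (1 / 2 : ℝ) ^ i.1 ≤ (1 / 2) ^ N0 :=
        pow_le_pow_of_le_one (by norm_num) (by norm_num) hn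
      have h2 : (14 / 15 : ℝ) ^ i.2.1 ≤ 1 := pow_le_one₀ (by norm_num) (by norm_num)
      have h3 : (1 / 2 : ℝ) ^ i.1 * (14 / 15 : ℝ) ^ i.2.1 ≤ (1 / 2) ^ i.1 * 1 :=
        mul_le_mul_of_nonneg_left h2 (by positivity)
      have := norm_sub_le (w i (fun n => tm (n + 2 ^ r * q))) (w i tm)
      have b2' : ‖w i tm‖ ≤ 3 * ((1 / 2) ^ i.1 * (14 / 15) ^ i.2.1) := b2
      linarith
    · by_cases hs : S0 ≤ i.2.1
      · have h1 : (14 / 15 : ℝ) ^ i.2.1 ≤ (14 / 15) ^ S0 :=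
          pow_le_pow_of_le_one (by norm_num) (by norm_num) hs
        have h2 : (1 / 2 : ℝ) ^ i.1 ≤ 1 := pow_le_one₀ (by norm_num) (by norm_num)
        have h3 : (1 / 2 : ℝ) ^ i.1 * (14 / 15 : ℝ) ^ i.2.1 ≤ 1 * (14 / 15) ^ i.2.1 :=
          mul_le_mul_of_nonneg_right h2 (by positivity)
        have := norm_sub_le (w i (fun n => tm (n + 2 ^ r * q))) (w i tm)
        have b2' : ‖w i tm‖ ≤ 3 * ((1 / 2) ^ i.1 * (14 / 15) ^ i.2.1) := b2
        linarith
      · rw [not_le] at hn hs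
        have : w i (fun n => tm (n + 2 ^ r * q)) = w i tm := by
          unfold w
          congr 1
          apply sum_congr rfl
          intro j hj
          rw [mem_range] at hj
          have h16 : 16 ^ i.2.1 ≤ 16 ^ S0 := Nat.pow_le_pow_right (by norm_num) hs.le
          have hlt : i.1 + j < 2 ^ r := by omega
          have e5 : tm (i.1 + j + 2 ^ r * q) = tm (i.1 + j) := by
            rw [add_comm (i.1 + j), tm_block r q _ hlt, hq3, one_mul]
          simp only [e5]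
        rw [this, sub_self, norm_zero]
        positivity
  linarith

end Pool.Agent.Work.MP_28bf97_an
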